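import Pool.Agent.Helper1.Stab.T.Sub

/-! Project T, packet N4: calculus for the multiplication with a class, used for the existence of
morphisms out of a localised theory. -/

open CategoryTheory Topology Filter Set Opposite

noncomputable section

namespace Pool.Agent.Helper87.Stab

open Pool.Agent.Helper1.Stab
open Pool.Agent.Helper63.Stab (jh pl jh_trans jh_congr jh_symm_comp jh_comp_symm tens_jh pl_jh jh_pl
  pl_congr ltens_pl tens_eq_pl eq_pl ltens_def g_sum' ltens_eq_pl tens_nat)

variable {R : Biv}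

/-- the unit on the left is natural -/
theorem ltens_lunit {K L : LC} (y : R.Hom K L) :
    R.comp (R.ltens LC.point y) (jh R (LC.lunit L)) = R.comp (jh R (LC.lunit K)) y := by
  have h := R.tens_point y
  have h1 : jh R (LC.lunit L) = R.comp (jh R (LC.swap LC.point L))
      (jh R (K := L.prod LC.point) (L := L) (Homeomorph.prodPUnit L)) := by
    rw [← jh_trans]
    exact jh_congr R fun _ => rfl
  have h2 : jh R (LC.lunit K) = R.comp (jh R (LC.swap LC.point K))
      (jh R (K := K.prod LC.point) (L := K) (Homeomorph.prodPUnit K)) := by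
    rw [← jh_trans]
    exact jh_congr R fun _ => rfl
  rw [ltens_def, h1, h2]
  simp only [R.assoc]
  have h3 : R.comp (jh R (LC.swap L LC.point)) (R.comp (jh R (LC.swap LC.point L))
      (jh R (K := L.prod LC.point) (L := L) (Homeomorph.prodPUnit L))) =
      jh R (K := L.prod LC.point) (L := L) (Homeomorph.prodPUnit L) :=
    jh_comp_symm R (LC.swap L LC.point) _
  rw [h3]
  exact congrArg (fun t => R.comp (jh R (LC.swap LC.point K)) t) h

theorem mulx_eq {V : LC} (a : R.Hom V LC.point) {K Z : LC} (y : R.Hom K Z) :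
    R.mulx a y = R.comp (R.act a K) y := by
  unfold Biv.mulx Biv.act
  rw [R.assoc]
  rfl

theorem mulx_pre {V : LC} (a : R.Hom V LC.point) {K L Z : LC} (φ : PMap K L.plus)
    (y : R.Hom L Z) : R.mulx a (R.comp (R.J φ) y) =
      R.comp (R.J (PMap.ltens V φ)) (R.mulx a y) := TL69.mulx_nat R a φ y

theorem mulx_comp {V : LC} (a : R.Hom V LC.point) {K L Z : LC} (y : R.Hom K L) (z : R.Hom L Z) :
    R.mulx a (R.comp y z) = R.comp (R.mulx a y) z := by
  rw [mulx_eq, mulx_eq, R.assoc]

theorem mulx_tens {V : LC} (a : R.Hom V LC.point) {K Z : LC} (y : R.Hom K Z) (W : LC) :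
    R.tens (R.mulx a y) W = R.comp (jh R (ascH V K W)) (R.mulx a (R.tens y W)) := by
  unfold Biv.mulx
  have h1 := R.tens_tens a K W
  have h2 : R.tens (R.J (PMap.ofHomeo (LC.lunit K))) W =
      R.comp (jh R (ascH LC.point K W)) (R.J (PMap.ofHomeo (LC.lunit (K.prod W)))) := by
    rw [R.tens_J, jh, ← R.J_comp]
    congr 1
  rw [R.tens_comp, R.tens_comp, h2, R.assoc, ← R.assoc (R.tens (R.tens a K) W),
    ← R.assoc (jh R (ascH V K W))]
  exact congrArg (fun t => R.comp t _) h1

/-- the permutation `G × (V × K) → V × (G × K)` -/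
def sw3 (G V K : LC) : G.prod (V.prod K) ≃ₜ V.prod (G.prod K) where
  toFun x := (x.2.1, (x.1, x.2.2))
  invFun x := (x.2.1, (x.1, x.2.2))
  left_inv _ := rfl
  right_inv _ := rfl
  continuous_toFun := by fun_prop
  continuous_invFun := by fun_prop

theorem ltens_act {V : LC} (a : R.Hom V LC.point) (G K : LC) :
    R.ltens G (R.act a K) = R.comp (jh R (sw3 G V K)) (R.act a (G.prod K)) := by
  unfold Biv.act
  rw [tens_eq_pl a K, tens_eq_pl a (G.prod K), pl_jh, pl_jh, ltens_pl, jh_pl]
  exact pl_congr a (Homeomorph.refl _) _ _ _ _ (fun _ => rfl) (fun _ => rfl)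

theorem mulx_mulx {G V : LC} (x : R.Hom G LC.point) (a : R.Hom V LC.point) {K Z : LC}
    (y : R.Hom K Z) : R.mulx x (R.mulx a y) =
      R.comp (jh R (sw3 G V K)) (R.mulx a (R.mulx x y)) := by
  rw [mulx_eq, mulx_eq, mulx_eq, mulx_eq]
  have h := R.exch x (R.act a K)
  have h1 : R.comp (R.act x (V.prod K)) (R.act a K) =
      R.comp (R.tens x (V.prod K)) (R.comp (R.ltens LC.point (R.act a K))
        (jh R (LC.lunit K))) := by
    rw [ltens_lunit, Biv.act, R.assoc]
  rw [← R.assoc, h1, ← R.assoc (R.tens x (V.prod K)), h, ltens_act]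
  simp only [R.assoc]
  congr 2
  exact (R.assoc _ _ _).symm

theorem mulx_inj {V : LC} (a : R.Hom V LC.point) (a' : R.Hom LC.point V)
    (h : R.comp a' a = R.J (PMap.id _)) {K Z : LC} {y z : R.Hom K Z}
    (hyz : R.mulx a y = R.mulx a z) : y = z := by
  have key : ∀ y : R.Hom K Z, R.comp (R.tens a' K) (R.mulx a y) =
      R.comp (jh R (LC.lunit K)) y := by
    intro y
    unfold Biv.mulx
    rw [← R.assoc, ← R.tens_comp, h, Helper63.Stab.tens_id, R.id_comp]
    rfl
  have h1 := congrArg (fun t => R.comp (R.tens a' K) t) hyz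
  simp only [key] at h1
  have h2 := congrArg (fun t => R.comp (jh R (LC.lunit K).symm) t) h1
  exact (jh_symm_comp R (LC.lunit K) y).symm.trans (h2.trans (jh_symm_comp R (LC.lunit K) z))

theorem g_sum_mulx (R : GBiv) (κ l : Type) [Fintype κ] [Fintype l] :
    R.comp (R.J (GK.sumMap κ l)) (R.g (κ ⊕ l)) = R.mulx (R.g κ) (R.g l) := by
  rw [g_sum', Biv.mulx]
  congr 1
  have h := ltens_lunit (R := R.toBiv) (R.g l)
  have h1 : jh R.toBiv (LC.lunit LC.point) = jh R.toBiv (K := LC.point.prod LC.point)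
      (L := LC.point) (Homeomorph.prodPUnit LC.point) := jh_congr R.toBiv fun _ => rfl
  rw [h1] at h
  exact h

/-- a homeomorphism of the target in the middle -/
theorem ltens_exch' {L Z W : LC} {K : LC} (y : R.Hom K Z) (φ : PMap L W.plus) :
    R.comp (R.tens y L) (R.J (PMap.ltens Z φ)) = R.comp (R.J (PMap.ltens K φ)) (R.tens y W) :=
  Helper39.Stab.tens_exch R y φ

theorem asc_comp {K L Z W V : LC} (x : R.Hom K (L.prod W)) (y : R.Hom L Z) :
    R.comp (R.comp (R.tens x V) (jh R (ascH L W V))) (R.tens y (W.prod V)) =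
      R.comp (R.tens (R.comp x (R.tens y W)) V) (jh R (ascH Z W V)) := by
  have h := R.tens_tens y W V
  have h1 : R.comp (jh R (ascH L W V)) (R.tens y (W.prod V)) =
      R.comp (R.tens (R.tens y W) V) (jh R (ascH Z W V)) := h.symm
  rw [R.assoc, h1, R.tens_comp, R.assoc]

theorem jh_cancel {K L M : LC} (e : L ≃ₜ M) {x y : R.Hom K L}
    (h : R.comp x (jh R e) = R.comp y (jh R e)) : x = y := by
  have h1 := congrArg (fun t => R.comp t (jh R e.symm)) h
  simp only [R.assoc, Helper63.Stab.jh_comp_symm'] at h1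
  rwa [R.comp_id, R.comp_id] at h1

/-- `J id` on `K` from `J id` on the point -/
theorem J_id_eq (K : LC) : R.J (PMap.id K) = R.comp (jh R (LC.lunit K).symm)
    (R.comp (R.tens (R.J (PMap.id LC.point)) K) (jh R (LC.lunit K))) := by
  rw [Helper63.Stab.tens_id, R.id_comp]
  exact (Helper63.Stab.jh_symm_comp' R (LC.lunit K)).symm

/-- a natural transformation that preserves `J id` on the point preserves all `J` -/
theorem ntr_J {T R : Biv} (F : NTr T R)
    (h : F.F (T.J (PMap.id LC.point)) = R.J (PMap.id LC.point)) {K L : LC}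
    (f : PMap K L.plus) : F.F (T.J f) = R.J f := by
  have h1 : ∀ K : LC, F.F (T.J (PMap.id K)) = R.J (PMap.id K) := by
    intro K
    rw [J_id_eq (R := T) K, J_id_eq (R := R) K]
    have e1 : F.F (T.comp (jh T (LC.lunit K).symm)
        (T.comp (T.tens (T.J (PMap.id LC.point)) K) (jh T (LC.lunit K)))) =
        R.comp (jh R (LC.lunit K).symm) (F.F (T.comp (T.tens (T.J (PMap.id LC.point)) K)
          (jh T (LC.lunit K)))) := F.pre _ _
    have e2 : F.F (T.comp (T.tens (T.J (PMap.id LC.point)) K) (jh T (LC.lunit K))) =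
        R.comp (F.F (T.tens (T.J (PMap.id LC.point)) K)) (jh R (LC.lunit K)) := F.post _ _
    rw [e1, e2, F.tens, h]
  have h2 := F.pre f (T.J (PMap.id L))
  rw [T.comp_id, h1, R.comp_id] at h2
  exact h2

end Pool.Agent.Helper87.Stab
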