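import Pool.Agent.Helper84.Int.Alg
import Pool.Agent.Helper84.Sn.TeleKit
import Pool.Agent.Helper1.Stab.T.Op

/-! MP_ab4156_gt, PROJECT T, packet U12: the unit maps of localisations. -/

open CategoryTheory Topology Filter Set Opposite

noncomputable section

namespace Pool.Agent.Helper87.Stab.UM

open Pool.Agent.Helper1.Stab Pool.Agent.Helper84.Sn Pool.Agent.Helper84.Int

/-- the same structure in the form of `CommX` -/
def toLG {R : Biv} {D : Datum} (N : LocGF R D) : CommX.LG R D where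
  H := N.H
  cls := N.cls
  cls_add := N.cls_add
  cls_stab := N.cls_stab
  cls_re := N.cls_re
  surj t := by
    obtain ⟨n, -, y, hy⟩ := N.surj t 0
    exact ⟨n, y, hy⟩
  eq_zero := N.eq_zero
  map_cls := N.map_cls
  σ_cls := N.σ_cls

section
variable {R R' : Biv} (j : BivHom R R') {D : Datum}
variable {ι : Type} [Fintype ι] {K Z : LC}

theorem F_stabR (y : R.Hom ((D.A ι).prod K) ((D.B ι).prod Z)) (κ : Type) [Fintype κ] :
    j.F (CommX.stabR D R y κ) = CommX.stabR D R' (j.F y) κ := by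
  unfold CommX.stabR
  simp only [j.comp, j.J, j.tens, j.ltens]

theorem F_reR {κ : Type} [Fintype κ] (e : ι ≃ κ) (y : R.Hom ((D.A ι).prod K) ((D.B ι).prod Z)) :
    j.F (CommX.reR D R e y) = CommX.reR D R' e (j.F y) := by
  unfold CommX.reR
  simp only [j.comp, j.J, j.tens]

variable (N : CommX.LG R D) (N' : CommX.LG R' D)

theorem key0 {b : ℕ} {K : Test} (y z : R.Hom ((D.A ι).prod K.obj) ((D.B ι).prod (Zb b)))
    (h : N.cls y = N.cls z) : N'.cls (j.F y) = N'.cls (j.F z) := by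
  have h1 : N.cls (y - z) = 0 := by
    rw [N.cls_sub]
    exact sub_eq_zero.2 h
  obtain ⟨m, hm⟩ := N.eq_zero _ h1
  have h2 : N'.cls (j.F (y - z)) = 0 := by
    rw [← N'.cls_stab (j.F (y - z)) (Fin m), ← F_stabR, hm, j.map_zero]
    exact N'.cls_zero
  rw [j.map_sub, N'.cls_sub] at h2
  exact sub_eq_zero.1 h2

theorem key {κ : Type} [Fintype κ] {b : ℕ} {K : Test}
    (y : R.Hom ((D.A ι).prod K.obj) ((D.B ι).prod (Zb b)))
    (z : R.Hom ((D.A κ).prod K.obj) ((D.B κ).prod (Zb b)))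
    (h : N.cls y = N.cls z) : N'.cls (j.F y) = N'.cls (j.F z) := by
  have h1 : N.cls (CommX.stabR D R y κ) =
      N.cls (CommX.reR D R (Equiv.sumComm κ ι) (CommX.stabR D R z ι)) := by
    rw [N.cls_stab, N.cls_re, N.cls_stab, h]
  have h2 := key0 j N N' _ _ h1
  rw [F_stabR, F_reR, F_stabR, N'.cls_stab, N'.cls_re, N'.cls_stab] at h2
  exact h2

/-- the map of the localisations -/
def lmap (b : ℕ) (K : Test) (t : (N.H.h b).obj (op K)) : ((N'.H.h b).obj (op K) : Type) :=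
  N'.cls (j.F (N.surj t).choose_spec.choose)

theorem lmap_cls {b : ℕ} {K : Test} (y : R.Hom ((D.A ι).prod K.obj) ((D.B ι).prod (Zb b))) :
    lmap j N N' b K (N.cls y) = N'.cls (j.F y) :=
  key j N N' _ y (N.surj (N.cls y)).choose_spec.choose_spec.symm

theorem exists_locMap' : ∃ F : N.H ⟶ N'.H, ∀ (b : ℕ) (ι : Type) [Fintype ι] (K : Test)
      (y : R.Hom ((D.A ι).prod K.obj) ((D.B ι).prod (Zb b))),
      GF.evm b K F (N.cls y) = N'.cls (j.F y) := by
  obtain ⟨F, hF⟩ := CommX.exists_hom N.red N'.red N'.dbl_zero (lmap j N N')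
    (fun b K L f x => by
      obtain ⟨n, y, rfl⟩ := N.surj x
      rw [N.map_cls, lmap_cls, lmap_cls, N'.map_cls, j.comp, j.J])
    (fun b K x => by
      obtain ⟨n, y, rfl⟩ := N.surj x
      rw [N.σ_cls]
      refine (lmap_cls j N N' _).trans ?_
      rw [lmap_cls, N'.σ_cls, j.comp, j.comp, j.J, j.J, j.ltens])
  exact ⟨F, fun b ι _ K y => (hF b K (N.cls y)).trans (lmap_cls j N N' y)⟩

end

/-- (U2) Localisations are functorial for homomorphisms. -/
theorem exists_locMap {R R' : Biv} (j : BivHom R R') {D : Datum} (N : LocGF R D)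
    (N' : LocGF R' D) : ∃ F : N.H ⟶ N'.H, ∀ (b : ℕ) (ι : Type) [Fintype ι] (K : Test)
      (y : R.Hom ((D.A ι).prod K.obj) ((D.B ι).prod (Zb b))),
      GF.evm b K F (N.cls y) = N'.cls (j.F y) :=
  exists_locMap' j (toLG N) (toLG N')

/-! ## The unit -/

section
variable {D : Datum} (R : Biv) {ι : Type} [Fintype ι] {K L Z : LC}

theorem box_eq {K L Z W : LC} (f : PMap K L.plus) (g : PMap Z W.plus) :
    PMap.box f g = (PMap.ltens L g).comp (f.tens Z) := by
  ext ⟨k, z⟩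
  change smashPt L W (f k, g z) = (PMap.ltens L g).plus (smashPt L Z (f k, (z : OnePoint Z)))
  rcases f k with _ | l
  · rcases g z with _ | w <;> rfl
  · rfl

theorem J_stab (f : D.Rep ι K Z) (κ : Type) [Fintype κ] :
    R.J (f.stab κ) = CommX.stabR D R (R.J f) κ := by
  unfold CommX.stabR
  rw [R.tens_J, Helper9.Stab.ltens_J, R.tens_J, ← R.J_comp, ← R.J_comp, ← R.J_comp, ← R.J_comp,
    ← box_eq, PMap.comp_assoc, PMap.comp_assoc]
  rfl

theorem J_re {κ : Type} [Fintype κ] (e : ι ≃ κ) (f : D.Rep ι K Z) :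
    R.J (f.re e) = CommX.reR D R e (R.J f) := by
  unfold CommX.reR
  rw [R.tens_J, R.tens_J, ← R.J_comp, ← R.J_comp, PMap.comp_assoc]
  rfl

theorem J_ltens (W : LC) (f : D.Rep ι K Z) : R.J (Datum.Rep.ltens W f) =
    R.comp (R.J (PMap.ofHomeo (CommX.frontH (D.A ι) W K)))
      (R.comp (R.ltens W (R.J f)) (R.J (PMap.ofHomeo (CommX.frontH (D.B ι) W Z).symm))) := by
  rw [Helper9.Stab.ltens_J, ← R.J_comp, ← R.J_comp]
  congr 1
  ext ⟨v, w, k⟩
  rw [Datum.ltens_val]
  change _ = (PMap.ofHomeo (CommX.frontH (D.B ι) W Z).symm).plus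
    (smashPt W ((D.B ι).prod Z) ((w : OnePoint W), f (v, k)))
  rcases f (v, k) with _ | p <;> rfl

variable {R} (T : LocTheory D) (N : CommX.LG R D)

theorem ukey0 {b : ℕ} {K : Test} (f g : D.Rep ι K.obj (Zb b)) (h : T.cls f = T.cls g) :
    N.cls (R.J f) = N.cls (R.J g) := by
  obtain ⟨n, hn⟩ := T.cls_eq h
  rw [← N.cls_stab (R.J f) (Fin n), ← N.cls_stab (R.J g) (Fin n), ← J_stab, ← J_stab,
    R.J_homotopic hn]

theorem ukey {κ : Type} [Fintype κ] {b : ℕ} {K : Test} (f : D.Rep ι K.obj (Zb b))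
    (g : D.Rep κ K.obj (Zb b)) (h : T.cls f = T.cls g) : N.cls (R.J f) = N.cls (R.J g) := by
  have h1 : T.cls (f.stab κ) = T.cls ((g.stab ι).re (Equiv.sumComm κ ι)) := by
    rw [T.cls_stab, T.cls_re, T.cls_stab, h]
  have h2 := ukey0 T N _ _ h1
  rw [J_stab, J_re, J_stab, N.cls_stab, N.cls_re, N.cls_stab] at h2
  exact h2

theorem exists_rep {b : ℕ} {K : Test} (t : T.Hom K.obj (Zb b)) : ∃ (n : ℕ)
    (f : D.Rep (Fin n) K.obj (Zb b)), t = T.cls f := by
  obtain ⟨n, -, f, hf⟩ := T.cls_surj t 0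
  exact ⟨n, f, hf⟩

/-- the unit -/
def umap (b : ℕ) (K : Test) (t : T.Hom K.obj (Zb b)) : ((N.H.h b).obj (op K) : Type) :=
  N.cls (R.J (exists_rep T t).choose_spec.choose)

theorem umap_cls {b : ℕ} {K : Test} (f : D.Rep ι K.obj (Zb b)) :
    umap T N b K (T.cls f) = N.cls (R.J f) :=
  ukey T N _ f (exists_rep T (T.cls f)).choose_spec.choose_spec.symm

theorem exists_unit' : ∃ u : T.toBiv.gf ⟶ N.H, ∀ (b : ℕ) (ι : Type) [Fintype ι] (K : Test)
      (f : D.Rep ι K.obj (Zb b)), GF.evm b K u (T.cls f) = N.cls (R.J f) := by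
  obtain ⟨F, hF⟩ := CommX.exists_hom (G := T.toBiv.gf) T.toBiv.gf_red N.red N.dbl_zero
    (umap T N)
    (fun b K L φ x => by
      obtain ⟨n, f, rfl⟩ := exists_rep T x
      have h1 : pbT (T.toBiv.gf.h b) φ (T.cls f) = T.cls (Datum.Rep.pre φ f) :=
        CommX.J_comp_cls T φ f
      rw [h1, umap_cls, umap_cls, N.map_cls, ← R.J_comp]
      rfl)
    (fun b K x => by
      obtain ⟨n, f, rfl⟩ := exists_rep T x
      have h1 : (T.toBiv.gf.σ b).hom.app (op K) (T.cls f) =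
          T.cls (Datum.Rep.ltens LC.C f) := CommX.ltens_cls T LC.C f
      rw [umap_cls, N.σ_cls]
      refine (congrArg (umap T N (b + 1) (Test.cx.obj K)) h1).trans ?_
      refine (umap_cls T N (b := b + 1) (K := Test.cx.obj K) _).trans ?_
      refine congrArg (N.cls (b := b + 1) (K := Test.cx.obj K)) ?_
      exact J_ltens R LC.C f)
  exact ⟨F, fun b ι _ K f => (hF b K (T.cls f)).trans (umap_cls T N f)⟩

end

/-- (U1) The unit `T → R[D⁻¹]` of the universal theory `T` of the datum `D`. -/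
theorem exists_unit {R : Biv} {D : Datum} (T : LocTheory D) (N : LocGF R D) :
    ∃ u : T.toBiv.gf ⟶ N.H, ∀ (b : ℕ) (ι : Type) [Fintype ι] (K : Test)
      (f : D.Rep ι K.obj (Zb b)), GF.evm b K u (T.cls f) = N.cls (R.J f) :=
  exists_unit' T (toLG N)

end Pool.Agent.Helper87.Stab.UM
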